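import Pool.Agent.H65.HW.GStm
import Pool.Agent.H65.HW.GBas

/-!
# Project HW, part TRN: the numbers of the left-over edges of one vertex
-/

set_option autoImplicit false
open Classical Finset

namespace Pool.Agent.H38.HW

open Pool.Agent.H21.HV (nb Prp TotLab)
open Pool.Agent.H39.HW (sm Av ln blk lab Dat Sch Reg)
open Pool.Agent.H65.HW

theorem t_TRN (hT : S_TRM) (hR : S_RNM) (hE : S_EVD) : S_TRN := by
  intro D p s a N π hN
  obtain ⟨E, d, β0, hβ0, h1, h2, h3, h4, h5⟩ := hT D p s a N π hN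
  have hsch := hN.sch
  have haR := hN.aR
  obtain ⟨d', g1, g2, g3, g4⟩ := hR s.H (s.cls p a) d (fun P => (lab s.st (s.S P a)).card) E β0
    hβ0 hsch.hH (fun P hP β hβ => (h2 P hP β hβ).1) h3 h4 h5
  obtain ⟨r, r1, r2, r3⟩ := hE s.m s.H (s.cls p a) s.part (fun y => s.φ y a) d'
    (fun y hy => ⟨hsch.prt y hy, hsch.ph1 y hy a haR⟩)
    (by
      intro P hP β hβ hk
      apply g4 P hP β hβ
      have hk' : s.k P a β = 0 := hk
      have := h2 P hP β hβ
      rw [hk'] at this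
      simp only [Nat.cast_zero, mul_zero] at this
      exact le_antisymm this.2 this.1)
  have hω := omega_pos hsch
  have hδ := hsch.dpos
  have hρ1 := hsch.rho1
  have hρ12 := hsch.rho12
  have hρ2 := hsch.rho2
  have hbig := hN.big
  have hsmall := hsch.small
  have hm0 : (0 : ℝ) ≤ s.m := Nat.cast_nonneg _
  have hB0 : (0 : ℝ) ≤ s.B := Nat.cast_nonneg _
  have hH0 : (0 : ℝ) ≤ s.H := Nat.cast_nonneg _
  have hD0 : (0 : ℝ) ≤ D := Nat.cast_nonneg _
  have hprod : (8 : ℝ) ≤ (s.m + 2) * (s.B + 2) * (s.H + 2) := by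
    have e1 : (4 : ℝ) ≤ (s.m + 2) * (s.B + 2) := by nlinarith
    nlinarith
  have hBH : (s.B : ℝ) * s.H + 1 ≤ (s.m + 2) * (s.B + 2) * (s.H + 2) := by
    have e1 : (s.B + 2 : ℝ) * 2 ≤ (s.m + 2) * (s.B + 2) := by nlinarith
    have e2 : (s.B + 2 : ℝ) * 2 * (s.H + 2) ≤ (s.m + 2) * (s.B + 2) * (s.H + 2) := by
      apply mul_le_mul_of_nonneg_right e1; linarith
    have e3 : (0 : ℝ) ≤ s.B * s.H := mul_nonneg hB0 hH0
    nlinarith
  -- `δ D` is small against `ρ1 ω D`
  have hδD : 8 * (10 : ℝ) ^ 4 * (s.δ * D) ≤ s.ρ1 * s.ω * D := by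
    have e1 : 8 * (10 : ℝ) ^ 4 * s.δ ≤ s.ρ1 * s.ω := by
      refine le_trans ?_ hsmall
      nlinarith [mul_le_mul_of_nonneg_right hprod hδ.le]
    nlinarith [mul_le_mul_of_nonneg_right e1 hD0]
  have hBHδ : 100 * ((s.B : ℝ) * s.H + 1) ≤ s.δ * D := by
    refine le_trans ?_ hbig
    nlinarith
  have hδD1 : 1 ≤ s.δ * D := by
    have : (0 : ℝ) ≤ s.B * s.H := mul_nonneg hB0 hH0
    linarith
  have hρωD : s.ρ1 * s.ω * D ≤ s.ρ2 * s.ω * D := by
    have : 0 ≤ s.ω * D := by positivity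
    nlinarith [mul_le_mul_of_nonneg_right hρ12 this]
  have hρωD2 : s.ρ2 * s.ω * D ≤ 1 / 16 * (s.ω * D) := by
    have : 0 ≤ s.ω * D := by positivity
    nlinarith [mul_le_mul_of_nonneg_right hρ2 this]
  -- the bound for `r y`
  have hr : ∀ y < s.m, (r y : ℝ) ≤ 4 * s.ρ2 * s.ω * D := by
    intro y hy
    have hc := r1 y hy
    set k := ((range s.m).filter fun y' => s.part y' = s.part y ∧ s.φ y' a = s.φ y a).card with hk
    have hk1 : 1 ≤ k := by
      rw [hk]
      apply Finset.card_pos.2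
      exact ⟨y, by simp [hy]⟩
    have hkr : (1 : ℝ) ≤ k := by exact_mod_cast hk1
    have hP := hsch.prt y hy
    have hφ := hsch.ph1 y hy a haR
    have hd2 := (h2 _ hP _ hφ).2
    have hkk : s.k (s.part y) a (s.φ y a) = k := rfl
    rw [hkk] at hd2
    have hab := (abs_le.1 (g3 _ hP _ hφ)).2
    have hcl : ((s.cls p a).card : ℝ) ≤ s.B := by
      have : (s.cls p a).card ≤ s.B := by
        calc (s.cls p a).card ≤ (range s.B).card := by
              apply Finset.card_le_card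
              intro β hβ
              unfold Dat.cls at hβ
              simp only [mem_sdiff, mem_erase, mem_filter] at hβ
              exact hβ.1.2.1
          _ = s.B := card_range _
      exact_mod_cast this
    have hclH : ((s.cls p a).card : ℝ) * s.H ≤ s.B * s.H := mul_le_mul_of_nonneg_right hcl hH0
    have hcr : (r y : ℝ) * k ≤ d' (s.part y) (s.φ y a) + k := by exact_mod_cast hc
    have h6 : (r y : ℝ) * k ≤ (2 * s.ρ2 * s.ω * D + s.B * s.H + 1) * k := by
      have e1 : (s.B : ℝ) * s.H ≤ (s.B * s.H) * k := by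
        have : (0 : ℝ) ≤ s.B * s.H := mul_nonneg hB0 hH0
        nlinarith
      nlinarith
    have h7 : (r y : ℝ) ≤ 2 * s.ρ2 * s.ω * D + s.B * s.H + 1 :=
      le_of_mul_le_mul_right h6 (by linarith)
    linarith
  refine ⟨r, ?_, ?_, ?_⟩
  · intro y hy
    refine ⟨?_, hr y hy⟩
    have h6 := hr y hy
    have h7 := hN.lo y hy
    have h8 : (r y : ℝ) ≤ N y := by
      have e1 : s.ρ1 * s.ω * D ≤ 1 / 16 * (s.ω * D) := hρωD.trans hρωD2
      nlinarith
    exact_mod_cast h8
  · intro P hP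
    rw [r2 P hP]
    exact g1 P hP
  · intro β hβ
    rw [h1 β hβ, r3 β hβ, g2 β hβ]

end Pool.Agent.H38.HW
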